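import Pool.Agent.Helper50.SG.HierMain
import Pool.Agent.Helper18.Hier.Stmt
import Pool.Agent.Npc.Sph

/-!
# Groups with a right-angled hierarchy have no `ℓ²`-homology outside the middle degree

`Hierarchy.van`: the vanishing.
-/

set_option autoImplicit false

universe u v w

namespace Singer

open SingerPD

/-- the subgroups of finite index without involutions of the right-angled Coxeter group of a flag homology sphere -/
theorem vanE_of_hsphere {n : ℕ} {V : Type} [Fintype V] {L : SimpleGraph V} (hL : SingerCube.HSphere n L)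
    {H : Subgroup (RACG L)} (hHf : H.FiniteIndex) (hHi : NoInv H) (F : FinRes H) {i : ℕ} (hi : 2 * i ≠ n) :
    F.VanE i := by
  have hPD : IsPD n H := isPD_of_goodQ (SingerCube.goodQ_of_hsphere hL) hHf hHi
  exact SQ.vanE_virtual SQ.lem SQ.tower L (⊤ : Subgroup H) (H.subtype.comp (⊤ : Subgroup H).subtype)
    (H.subtype_injective.comp (⊤ : Subgroup H).subtype_injective) (hPD.of_finiteIndex ⊤) F i hi

/-- groups commensurable with the right-angled Coxeter group of a flag homology sphere -/
theorem van_cox_hsphere {n : ℕ} {V : Type} {L : SimpleGraph V} (hL : SingerCube.HSphere n L) {K Γ : Type*} [Group K]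
    [Group Γ] (k : K →* Cox L) (j : K →* Γ) (hk : Function.Injective k) (hkf : k.range.FiniteIndex)
    (hj : Function.Injective j) (hjf : j.range.FiniteIndex) (R : Res.{0} Γ) {i : ℕ} (hi : 2 * i ≠ n) :
    R.Z i ≤ R.B i := by
  classical
  have hV : Finite V := by
    cases n with
    | zero =>
      have h0 : IsEmpty V := hL
      infer_instance
    | succ n => exact hL.1
  have : Fintype V := Fintype.ofFinite V
  obtain ⟨H0, hf0', hinv0⟩ : ∃ H : Subgroup (RACG L), H.FiniteIndex ∧ NoInv H :=
    ⟨ker2 L, finiteIndex_ker2 L, noInv_ker2 L⟩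
  have hkf' : k.range.FiniteIndex := hkf
  have hjf' : j.range.FiniteIndex := hjf
  -- the subgroup `H0 ∩ k(K)`
  let H : Subgroup (Cox L) := H0 ⊓ k.range
  have hHf : H.FiniteIndex := ⟨Subgroup.index_inf_ne_zero hf0'.index_ne_zero hkf'.index_ne_zero⟩
  have hHi : NoInv H := fun h hh => hinv0 h hh.1
  obtain ⟨F, -⟩ := exists_finRes_of_noInv hHf hHi
  let e : K ≃* k.range := MonoidHom.ofInjective hk
  let f : H →* Γ := (j.comp e.symm.toMonoidHom).comp (Subgroup.inclusion inf_le_right)
  have hf : Function.Injective f := by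
    refine hj.comp (e.symm.injective.comp ?_)
    exact Subgroup.inclusion_injective inf_le_right
  have hrange : f.range = (H0.comap k).map j := by
    ext x
    constructor
    · rintro ⟨⟨y, hy1, hy2⟩, rfl⟩
      obtain ⟨z, rfl⟩ := hy2
      refine ⟨z, hy1, ?_⟩
      show j z = j (e.symm ⟨k z, _⟩)
      congr 1
      rw [MulEquiv.eq_symm_apply]
      rfl
    · rintro ⟨z, hz, rfl⟩
      refine ⟨⟨k z, hz, ⟨z, rfl⟩⟩, ?_⟩
      show j (e.symm ⟨k z, _⟩) = j z
      congr 1
      rw [MulEquiv.symm_apply_eq]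
      rfl
  have hfi : f.range.FiniteIndex := by
    rw [hrange]
    constructor
    rw [Subgroup.index_map_of_injective _ hj]
    have h1 : (H0.comap k).index ≠ 0 := by
      rw [Subgroup.index_comap]
      exact fun h0 => hf0'.index_ne_zero (Subgroup.index_eq_zero_of_relIndex_eq_zero h0)
    exact mul_ne_zero h1 hjf'.index_ne_zero
  exact (R.van_iff_index f hf hfi F i).1 ((F.van_iff_vanE i).2 (vanE_of_hsphere hL hHf hHi F hi))

/-- **vanishing** for the groups of the class -/
theorem Hierarchy.van {n : ℕ} {Γ : Type u} [Group Γ] (h : Hierarchy n Γ) {i : ℕ} (hi : 2 * i ≠ n) (R : Res.{0} Γ) :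
    R.Z i ≤ R.B i := by
  induction h with
  | cox L k j hL hk hkf hj hjf => exact van_cox_hsphere hL k j hk hkf hj hjf R hi
  | supergroup j hj hf _ ih =>
    obtain ⟨T⟩ := exists_trv_hom j hj hf
    exact (T.vanish_iff R i).1 (ih (T.res R))
  | @tree Γ V _ _ T F K tree act inv hF hK RV RE _ ih =>
    classical
    obtain ⟨S, I, SM, h⟩ := tree_le T tree act inv (fun x : F => x.1) (fun v => by
      obtain ⟨x, hx, g, hg⟩ := hF v
      exact ⟨⟨x, hx⟩, g, hg⟩) K hK (fun v => (RV v).some) (fun v w hvw => (RE v w hvw).some)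
    rw [← Res.h_eq_zero_iff, Res.h_eq R S]
    refine le_antisymm ((h i).trans (le_of_eq ?_)) (HC.h_nonneg _ i)
    refine Finset.sum_eq_zero fun j _ => ?_
    exact (Res.h_eq_zero_iff (SM j) i).2 (ih j.1.1 j.1.2 (SM j))

theorem Hierarchy.betti_eq_zero {n : ℕ} {Γ : Type u} [Group Γ] (h : Hierarchy n Γ) {i : ℕ} (hi : 2 * i ≠ n)
    (R : FinRes Γ) : R.betti i = 0 := by
  rw [R.betti_eq, Res.h_eq_zero_iff]
  exact h.van hi _

end Singer
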